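import Pool.Agent.H71.NU.Stmts

/-! NU project: module CNT. -/

namespace NU

open MeasureTheory MS

theorem CNT_fin {Ω : Type} (t : L → Ω → Ω) (K : Set Ω) (n : ℕ) (ω : Ω) :
    (Kn t K n ω).Finite :=
  (List.finite_length_le L n).subset (fun _ hv => hv.2.1)

theorem CNT_tog_eq {s : L} {l : List L} (h : Red l) (hs : l.head? = some s) :
    tog s l = l.tail := by
  simp [tog, h, hs]

theorem CNT_tog_ne {s : L} {l : List L} (h : Red l) (hs : l.head? ≠ some s) :
    tog s l = s :: l := by
  simp [tog, h, hs]

theorem CNT_red_cons {s : L} {l : List L} (h : Red l) (hs : l.head? ≠ some s) :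
    Red (s :: l) := by
  cases l with
  | nil => simp [Red]
  | cons a l =>
    simp only [List.head?_cons, ne_eq, Option.some.injEq] at hs
    exact List.isChain_cons_cons.2 ⟨fun h => hs h.symm, h⟩

theorem CNT_red_tog {s : L} {l : List L} (h : Red l) : Red (tog s l) := by
  by_cases hs : l.head? = some s
  · rw [CNT_tog_eq h hs]
    exact List.IsChain.tail h
  · rw [CNT_tog_ne h hs]
    exact CNT_red_cons h hs

theorem CNT_tog_tog {s : L} {l : List L} (h : Red l) : tog s (tog s l) = l := by
  by_cases hs : l.head? = some s
  · obtain ⟨l', rfl⟩ : ∃ l', l = s :: l' := by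
      cases l with
      | nil => simp at hs
      | cons a l => simp only [List.head?_cons, Option.some.injEq] at hs; exact ⟨l, by rw [hs]⟩
    rw [CNT_tog_eq h hs, List.tail_cons]
    have h' : Red l' := List.IsChain.tail h
    apply CNT_tog_ne h'
    intro h1
    cases l' with
    | nil => simp at h1
    | cons b l' =>
      simp only [List.head?_cons, Option.some.injEq] at h1
      exact (List.isChain_cons_cons.1 h).1 h1.symm
  · rw [CNT_tog_ne h hs, CNT_tog_eq (CNT_red_cons h hs) (by simp), List.tail_cons]

theorem CNT_len {s : L} {l : List L} : (tog s l).length ≤ l.length + 1 := by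
  unfold tog
  split_ifs
  · simp only [List.length_tail]; omega
  · simp
  · omega

theorem CNT_good {Ω : Type} {t : L → Ω → Ω} (ht : ∀ s, Function.Involutive (t s)) {K : Set Ω}
    {s : L} {l : List L} {ω : Ω} (hω : ω ∈ K) (h : Red l) (hg : Good t K l (t s ω)) :
    Good t K (tog s l) ω := by
  by_cases hs : l.head? = some s
  · obtain ⟨l', rfl⟩ : ∃ l', l = s :: l' := by
      cases l with
      | nil => simp at hs
      | cons a l => simp only [List.head?_cons, Option.some.injEq] at hs; exact ⟨l, by rw [hs]⟩
    rw [CNT_tog_eq h hs, List.tail_cons]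
    have h1 := hg.2
    rw [ht s ω] at h1
    exact h1
  · rw [CNT_tog_ne h hs]
    exact ⟨hω, hg⟩

/-- number of words which reduce to a list -/
noncomputable def CNT_c : ℕ → List L → ℕ
  | 0, v => if v = [] then 1 else 0
  | n + 1, v => ∑ s, CNT_c n (tog s v)

theorem CNT_bound (n : ℕ) : ∀ v, Red v → CNT_c n v * 4 ^ v.length ≤ 8 ^ n := by
  induction n with
  | zero =>
    intro v _
    simp only [CNT_c]
    split_ifs with h
    · simp [h]
    · simp
  | succ n ih =>
    intro v hv
    cases v with
    | nil =>
      have h1 : ∀ s : L, CNT_c n (tog s []) * 4 ≤ 8 ^ n := by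
        intro s
        rw [CNT_tog_ne hv (by simp)]
        have := ih [s] (by simp [Red])
        simpa using this
      have h2 : ∑ s : L, CNT_c n (tog s []) * 4 ≤ ∑ s : L, 8 ^ n := Finset.sum_le_sum fun s _ => h1 s
      rw [← Finset.sum_mul] at h2
      simp only [Finset.sum_const, Finset.card_univ, Fintype.card_fin, smul_eq_mul] at h2
      simp only [CNT_c, List.length_nil, pow_zero, mul_one, pow_succ]
      omega
    | cons a v =>
      have hv' : Red v := List.IsChain.tail hv
      have h1 : ∀ s : L, CNT_c n (tog s (a :: v)) * (16 * 4 ^ v.length) ≤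
          if s = a then 16 * 8 ^ n else 8 ^ n := by
        intro s
        split_ifs with hs
        · subst hs
          rw [CNT_tog_eq hv (by simp), List.tail_cons]
          have := ih v hv'
          nlinarith
        · have hne : (a :: v).head? ≠ some s := by
            simp only [List.head?_cons, ne_eq, Option.some.injEq]
            exact fun h => hs h.symm
          rw [CNT_tog_ne hv hne]
          have := ih _ (CNT_red_cons hv hne)
          simp only [List.length_cons, pow_succ] at this
          calc CNT_c n (s :: a :: v) * (16 * 4 ^ v.length)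
              = CNT_c n (s :: a :: v) * (4 ^ v.length * 4 * 4) := by ring
            _ ≤ _ := this
      have h2 := Finset.sum_le_sum (s := Finset.univ) fun s (_ : s ∈ Finset.univ) => h1 s
      rw [← Finset.sum_mul] at h2
      have h3 : ∑ s : L, (if s = a then 16 * 8 ^ n else 8 ^ n) = 31 * 8 ^ n := by
        rw [Finset.sum_ite]
        simp only [Finset.sum_const, smul_eq_mul]
        have e1 : (Finset.univ.filter fun s : L => s = a).card = 1 := by
          rw [Finset.card_eq_one]
          exact ⟨a, by ext x; simp⟩
        have e2 : (Finset.univ.filter fun s : L => ¬ s = a).card = 15 := by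
          have := Finset.card_filter_add_card_filter_not (s := (Finset.univ : Finset L))
            (fun s => s = a)
          rw [e1, Finset.card_univ, Fintype.card_fin] at this
          omega
        rw [e1, e2]
        ring
      rw [h3] at h2
      simp only [CNT_c, List.length_cons, pow_succ]
      generalize ∑ s : L, CNT_c n (tog s (a :: v)) = x at *
      generalize 4 ^ v.length = y at *
      generalize 8 ^ n = z at *
      have : x * (16 * y) = 16 * (x * y) := by ring
      have h5 : x * (y * 4) = 4 * (x * y) := by ring
      rw [this] at h2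
      rw [h5]
      omega

theorem CNT_sum {Ω : Type} {t : L → Ω → Ω} (ht : ∀ s, Function.Involutive (t s)) (K : Set Ω)
    (n : ℕ) : ∀ ω, Np t K n ω ≤ ∑ v ∈ (CNT_fin t K n ω).toFinset, CNT_c n v := by
  induction n with
  | zero =>
    intro ω
    simp only [Np]
    split_ifs with h
    · have h1 : ([] : List L) ∈ (CNT_fin t K 0 ω).toFinset := by
        rw [Set.Finite.mem_toFinset]
        exact ⟨by simp [Red], by simp, h⟩
      calc 1 = CNT_c 0 [] := by simp [CNT_c]
        _ ≤ _ := Finset.single_le_sum (f := fun v => CNT_c 0 v) (fun _ _ => Nat.zero_le _) h1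
    · exact Nat.zero_le _
  | succ n ih =>
    intro ω
    simp only [Np]
    split_ifs with h
    · have h1 : ∀ s : L, Np t K n (t s ω) ≤
          ∑ u ∈ (CNT_fin t K (n + 1) ω).toFinset, CNT_c n (tog s u) := by
        intro s
        refine (ih (t s ω)).trans ?_
        have h2 : ∑ v ∈ (CNT_fin t K n (t s ω)).toFinset, CNT_c n v =
            ∑ u ∈ (CNT_fin t K n (t s ω)).toFinset.image (tog s), CNT_c n (tog s u) := by
          rw [Finset.sum_image]
          · apply Finset.sum_congr rfl
            intro v hv
            rw [Set.Finite.mem_toFinset] at hv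
            rw [CNT_tog_tog hv.1]
          · intro v hv v' hv' he
            rw [Finset.mem_coe, Set.Finite.mem_toFinset] at hv hv'
            rw [← CNT_tog_tog (s := s) hv.1, he, CNT_tog_tog hv'.1]
        rw [h2]
        apply Finset.sum_le_sum_of_subset
        intro u hu
        obtain ⟨v, hv, rfl⟩ := Finset.mem_image.1 hu
        rw [Set.Finite.mem_toFinset] at hv ⊢
        exact ⟨CNT_red_tog hv.1, CNT_len.trans (Nat.succ_le_succ hv.2.1),
          CNT_good ht h hv.1 hv.2.2⟩
      refine (Finset.sum_le_sum fun s _ => h1 s).trans ?_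
      rw [Finset.sum_comm]
      rfl
    · exact Nat.zero_le _

theorem sCNT : SCnt := by
  intro Ω t ht K n ω
  refine (CNT_sum ht K n ω).trans ?_
  rw [Set.ncard_eq_toFinset_card _ (CNT_fin t K n ω), mul_comm, ← smul_eq_mul]
  apply Finset.sum_le_card_nsmul
  intro v hv
  rw [Set.Finite.mem_toFinset] at hv
  refine le_trans ?_ (CNT_bound n v hv.1)
  exact Nat.le_mul_of_pos_right _ (by positivity)

end NU
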