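import Pool.Agent.H71.NU.Stmts
import Pool.Agent.H47.MS.Cod
import Pool.Agent.H8.MS.MEA

/-! NU project: module REC. -/

namespace NU

open MeasureTheory MS TopologicalSpace

theorem REC_isOpen_coord (j : ℤ) (P : ℕ → Prop) : IsOpen {x : ℤ → ℕ | P (x j)} :=
  (isOpen_discrete {k : ℕ | P k}).preimage (f := fun x : ℤ → ℕ => x j) (continuous_apply j)

theorem REC_isOpen_occ (w : List ℕ) (i : ℤ) : IsOpen {x : ℤ → ℕ | Occ w x i} := by
  have : {x : ℤ → ℕ | Occ w x i} =
      ⋂ j : Fin w.length, {x : ℤ → ℕ | x (i + ((j : ℕ) : ℤ)) = w.get j} := by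
    ext x
    simp only [Occ, Set.mem_ofPred_eq, Set.mem_iInter]
  rw [this]
  exact isOpen_iInter_of_finite fun j => REC_isOpen_coord _ (fun k => k = w.get j)

theorem REC_isOpen_nocc (w : List ℕ) (i : ℤ) : IsOpen {x : ℤ → ℕ | ¬ Occ w x i} := by
  have : {x : ℤ → ℕ | ¬ Occ w x i} =
      ⋃ j : Fin w.length, {x : ℤ → ℕ | ¬ x (i + ((j : ℕ) : ℤ)) = w.get j} := by
    ext x
    simp only [Occ, Set.mem_ofPred_eq, Set.mem_iUnion, not_forall]
  rw [this]
  exact isOpen_iUnion fun j => REC_isOpen_coord _ (fun k => ¬ k = w.get j)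

theorem sREC : SRec := by
  refine ⟨?_, ?_, fun N => mea_alph_meas vie N, ?_⟩
  · intro w g
    have hU : IsOpen {x : ℤ → ℕ | ∀ i : ℤ, |i| ≤ g → ¬ Occ w x i} := by
      have : {x : ℤ → ℕ | ∀ i : ℤ, |i| ≤ g → ¬ Occ w x i} =
          ⋂ i ∈ Finset.Icc (-(g : ℤ)) g, {x : ℤ → ℕ | ¬ Occ w x i} := by
        ext x
        simp only [Set.mem_ofPred_eq, Set.mem_iInter, Finset.mem_Icc, abs_le]
      rw [this]
      exact isOpen_biInter_finset fun i _ => REC_isOpen_nocc w i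
    have h := (NonemptyCompacts.isOpen_inter_nonempty_of_isOpen hU).measurableSet.compl
    convert h using 1
    ext X
    simp only [Set.mem_ofPred_eq, Set.mem_compl_iff]
    constructor
    · rintro hX ⟨x, hx, hx'⟩
      obtain ⟨i, hi, ho⟩ := hX x hx
      exact hx' i hi ho
    · intro hX x hx
      by_contra hc
      push Not at hc
      exact hX ⟨x, hx, hc⟩
  · intro X w hX hw
    obtain ⟨y, hy, hyw⟩ := hw
    have hcov : (X : Set (ℤ → ℕ)) ⊆ ⋃ n : ℤ, {x : ℤ → ℕ | Occ w x n} := by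
      intro x hx
      have h1 := hX.2 x hx hy
      rw [mem_closure_iff] at h1
      obtain ⟨z, hz, n, hzn⟩ := h1 _ (REC_isOpen_occ w 0) hyw
      refine Set.mem_iUnion.2 ⟨n, fun j => ?_⟩
      have h2 := hz j
      rw [hzn] at h2
      rw [← h2]
      congr 1
      ring
    obtain ⟨t, ht⟩ := X.isCompact.elim_finite_subcover _ (fun n => REC_isOpen_occ w n) hcov
    refine ⟨t.sup (fun i => i.natAbs), fun x hx => ?_⟩
    obtain ⟨n, hn⟩ := Set.mem_iUnion.1 (ht hx)
    obtain ⟨hnt, hno⟩ := Set.mem_iUnion.1 hn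
    refine ⟨n, ?_, hno⟩
    rw [Int.abs_eq_natAbs]
    exact_mod_cast Finset.le_sup (f := fun i : ℤ => i.natAbs) hnt
  · intro X hX
    have hK : IsCompact ((fun x : ℤ → ℕ => x 0) '' (X : Set (ℤ → ℕ))) :=
      X.isCompact.image (continuous_apply 0)
    obtain ⟨M, hM⟩ := hK.bddAbove
    refine ⟨M + 1, fun x hx i => ?_⟩
    have := hM ⟨sh i x, H47.inv_sh hX.1 hx i, rfl⟩
    simp only [sh, zero_add] at this
    omega

end NU
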